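import Pool.Agent.N588.TD.Run
import Pool.Agent.N588.TD.Bit

set_option autoImplicit false

/-!
# The shadow vertex rule on linear programs of bounded incidence treedepth

Linear programs `max c x`, `A x ≤ b`, `x ≥ 0` with `m + n` rows and columns. The incidence graph
of `A` has the rows and the columns as vertices, and an edge for each nonzero entry. We show that
on linear programs whose incidence graph has treedepth at most `D` the shadow vertex rule makes at
most `(3 (m + n)) ^ ((2 D + 4) ^ D)` pivots, for all right hand sides, all objective functions, all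
real coefficients, and all generic start objectives. Here rows and columns can be removed in any
order on the way down, so that n-fold, two-stage and multistage stochastic, tree-fold and 4-block
programs with arbitrary coefficients are covered. In the bit model we get one deterministic
algorithm, a version of the simplex method for all linear programs, which is polynomial if the
treedepth is bounded.

The proof. Let `V(t)` be the maximum of `(z + t c) x`; the pivots of the shadow vertex rule are
breakpoints of `V`. After a truncation of the primal and the dual variables this is the value of a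
saddle point problem for a bilinear function on a product of two cubes. Keep the variables which
have been removed on the way down as parameters; in these parameters, `x` and `y` say, the value
of a block is concave in `x` and convex in `y`, and we prove by induction over the decomposition
that there are few affine functions of `x` and few affine functions of `y`, such that the value is
affine in `x` and in `y` on every set on which the signs of these functions do not change. For
disjoint blocks the values are added. If a column is removed, we maximise over one variable; then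
the maximiser is (by concavity) given by crossing one of the few affine functions of `x`, and the
pieces in `y` are described by the differences of slopes in the variable on the cells of an
arrangement, which has few cells since the number of parameters is bounded by the depth. Rows are
dual.
-/

namespace Pool.Agent.Results.MP_4d246d_lc.BoundedTreedepth

open Pool.Agent.NPC

/-- the polyhedron `A x ≤ b`, `x ≥ 0` -/
def Feasible {m n : ℕ} (A : Fin m → Fin n → ℝ) (b : Fin m → ℝ) : Set (Fin n → ℝ) :=
  {x | (∀ i, ∑ j, A i j * x j ≤ b i) ∧ ∀ j, 0 ≤ x j}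

/-- the linear function `c x` -/
def val {n : ℕ} (c x : Fin n → ℝ) : ℝ := ∑ j, c j * x j

/-- `x` maximises the linear function `c` on `P` -/
def Optimal {n : ℕ} (P : Set (Fin n → ℝ)) (c x : Fin n → ℝ) : Prop :=
  x ∈ P ∧ ∀ y ∈ P, val c y ≤ val c x

/-- The incidence graph of the rows `R` and the columns `X` of the matrix `A` has treedepth at most
`D`: it is empty, or it is the disjoint union of two such graphs without edges between them, or it
has treedepth at most `D - 1` after removal of one row or column. -/
inductive Treedepth {m n : ℕ} (A : Fin m → Fin n → ℝ) :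
    ℕ → Finset (Fin m) → Finset (Fin n) → Prop
  | empty (D : ℕ) : Treedepth A D ∅ ∅
  | union {D : ℕ} {R₁ R₂ : Finset (Fin m)} {X₁ X₂ : Finset (Fin n)} (hR : Disjoint R₁ R₂)
      (hX : Disjoint X₁ X₂) (h₁ : ∀ i ∈ R₁, ∀ j ∈ X₂, A i j = 0)
      (h₂ : ∀ i ∈ R₂, ∀ j ∈ X₁, A i j = 0) (d₁ : Treedepth A D R₁ X₁)
      (d₂ : Treedepth A D R₂ X₂) : Treedepth A D (R₁ ∪ R₂) (X₁ ∪ X₂)
  | row {D : ℕ} {R : Finset (Fin m)} {X : Finset (Fin n)} (i : Fin m) (hi : i ∉ R)
      (d : Treedepth A D R X) : Treedepth A (D + 1) (insert i R) X
  | col {D : ℕ} {R : Finset (Fin m)} {X : Finset (Fin n)} (j : Fin n) (hj : j ∉ X)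
      (d : Treedepth A D R X) : Treedepth A (D + 1) R (insert j X)

/-- A pivot of the shadow vertex rule with the start objective `z`: `x` and `y` are vertices of `P`
joined by an edge on which the objective `c` increases, and no point `u` of `P` with `c x < c u`
has a larger slope `z (u - x) / c (u - x)` than `y`. -/
def ShadowPivot {n : ℕ} (P : Set (Fin n → ℝ)) (c z x y : Fin n → ℝ) : Prop :=
  x ∈ P.extremePoints ℝ ∧ y ∈ P.extremePoints ℝ ∧ IsExposed ℝ P (segment ℝ x y) ∧
    val c x < val c y ∧ ∀ u ∈ P, val c x < val c u →
      val z (u - x) * val c (y - x) ≤ val z (y - x) * val c (u - x)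

/-- The shadow vertex rule finds an unbounded edge at `x` in the direction `d`, on which the
objective `c` increases. -/
def ShadowRay {n : ℕ} (P : Set (Fin n → ℝ)) (c z x d : Fin n → ℝ) : Prop :=
  IsExposed ℝ P {y | ∃ t : ℝ, 0 ≤ t ∧ y = x + t • d} ∧ 0 < val c d ∧
    ∀ u ∈ P, val c x < val c u → val z (u - x) * val c d ≤ val z d * val c (u - x)

/-- `x 0, …, x N` are `N` successive pivots of the shadow vertex rule from the vertex `v` -/
def ShadowRun {n : ℕ} (P : Set (Fin n → ℝ)) (c z v : Fin n → ℝ) (N : ℕ)
    (x : ℕ → Fin n → ℝ) : Prop :=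
  x 0 = v ∧ ∀ k < N, ShadowPivot P c z (x k) (x (k + 1))

/-! ### The bit model -/

/-- rational vectors as real vectors -/
noncomputable def re {n : ℕ} (x : Fin n → ℚ) : Fin n → ℝ := fun j => (x j : ℝ)

/-- the polyhedron `A x ≤ b`, `x ≥ 0` for rational data -/
def polyhedron {m n : ℕ} (A : Fin m → Fin n → ℚ) (b : Fin m → ℚ) : Set (Fin n → ℝ) :=
  Feasible (fun i j => (A i j : ℝ)) fun i => (b i : ℝ)

/-- `x` and `y` are joined by an edge of `P` on which the objective function increases -/
def ImprovingEdge {n : ℕ} (P : Set (Fin n → ℝ)) (c x y : Fin n → ℚ) : Prop :=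
  IsExposed ℝ P (segment ℝ (re x) (re y)) ∧ val (re c) (re x) < val (re c) (re y)

/-- `P` has an unbounded edge at `x`, in the direction `d`, on which the objective function
increases -/
def UnboundedEdge {n : ℕ} (P : Set (Fin n → ℝ)) (c x d : Fin n → ℚ) : Prop :=
  IsExposed ℝ P {z | ∃ t : ℝ, 0 ≤ t ∧ z = re x + t • re d} ∧ 0 < val (re c) (re d)

/-- The vertices `x 0, …, x N` of `P` are a path of improving edges starting at `v`. It ends at a
vertex maximising the objective function (`d = none`), or at a vertex with an unbounded improving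
edge in the direction `e` (`d = some e`). -/
def IsSimplexPath {n : ℕ} (P : Set (Fin n → ℝ)) (c v : Fin n → ℚ) (N : ℕ)
    (x : ℕ → Fin n → ℚ) (d : Option (Fin n → ℚ)) : Prop :=
  x 0 = v ∧ (∀ k ≤ N, re (x k) ∈ Set.extremePoints ℝ P) ∧
    (∀ k < N, ImprovingEdge P c (x k) (x (k + 1))) ∧
    (d = none → Optimal P (re c) (re (x N))) ∧
    ∀ e, d = some e → UnboundedEdge P c (x N) e

/-- the linear program `A`, `b`, `c` as a bit string -/
def program {m n : ℕ} (A : Fin m → Fin n → ℚ) (b : Fin m → ℚ) (c : Fin n → ℚ) : List Bool :=
  bits (List.ofFn fun i => List.ofFn (A i), List.ofFn b, List.ofFn c)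

/-- the linear program `A`, `b`, `c` with its start vertex `v` as a bit string -/
def input {m n : ℕ} (A : Fin m → Fin n → ℚ) (b : Fin m → ℚ) (c v : Fin n → ℚ) : List Bool :=
  bits (List.ofFn fun i => List.ofFn (A i), List.ofFn b, List.ofFn c, List.ofFn v)

/-- the number `T` in unary, and the linear program with its start vertex, as a bit string -/
def query {m n : ℕ} (T : ℕ) (A : Fin m → Fin n → ℚ) (b : Fin m → ℚ) (c v : Fin n → ℚ) :
    List Bool :=
  bits (List.replicate T (),
    List.ofFn fun i => List.ofFn (A i), List.ofFn b, List.ofFn c, List.ofFn v)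

/-- the answer `x 0, …, x N` and `d` as a bit string -/
def answer {n : ℕ} (N : ℕ) (x : ℕ → Fin n → ℚ) (d : Option (Fin n → ℚ)) : List Bool :=
  bits (some ((List.range (N + 1)).map (fun k => List.ofFn (x k)), d.map List.ofFn) :
    Option (List (List ℚ) × Option (List ℚ)))

/-- the answer that the path is not finished -/
def noAnswer : List Bool := bits (none : Option (List (List ℚ) × Option (List ℚ)))

/-! ### Treedepth -/

theorem nested {m n : ℕ} {A : Fin m → Fin n → ℝ} {D : ℕ} {R : Finset (Fin m)}
    {X : Finset (Fin n)} (h : Treedepth A D R X) : N588.TD.Nested A D R X := by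
  induction h with
  | empty D => exact .nil D
  | union hR hX h₁ h₂ _ _ d₁ d₂ => exact .union hR hX h₁ h₂ d₁ d₂
  | row i hi _ d => exact .row i hi d
  | col j hj _ d => exact .col j hj d

theorem mono {m n : ℕ} {A : Fin m → Fin n → ℝ} {D : ℕ} {R : Finset (Fin m)}
    {X : Finset (Fin n)} (h : Treedepth A D R X) : ∀ D', D ≤ D' → Treedepth A D' R X := by
  induction h with
  | empty D => exact fun D' _ => .empty D'
  | union hR hX h₁ h₂ _ _ d₁ d₂ => exact fun D' hD => .union hR hX h₁ h₂ (d₁ D' hD) (d₂ D' hD)
  | row i hi _ d =>
    intro D' hD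
    obtain ⟨E, rfl⟩ : ∃ E, D' = E + 1 := ⟨D' - 1, by omega⟩
    exact .row i hi (d E (by omega))
  | col j hj _ d =>
    intro D' hD
    obtain ⟨E, rfl⟩ : ∃ E, D' = E + 1 := ⟨D' - 1, by omega⟩
    exact .col j hj (d E (by omega))

theorem add_rows {m n : ℕ} {A : Fin m → Fin n → ℝ} {D : ℕ} {R : Finset (Fin m)}
    {X : Finset (Fin n)} (h : Treedepth A D R X) (S : Finset (Fin m)) :
    Treedepth A (D + S.card) (S ∪ R) X := by
  induction S using Finset.induction_on with
  | empty => simpa using h
  | insert i S hi ih =>
    rw [Finset.card_insert_of_notMem hi, Finset.insert_union]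
    by_cases h' : i ∈ S ∪ R
    · rw [Finset.insert_eq_of_mem h']
      exact mono ih _ (by omega)
    · exact .row i h' ih

theorem add_cols {m n : ℕ} {A : Fin m → Fin n → ℝ} {D : ℕ} {R : Finset (Fin m)}
    {X : Finset (Fin n)} (h : Treedepth A D R X) (S : Finset (Fin n)) :
    Treedepth A (D + S.card) R (S ∪ X) := by
  induction S using Finset.induction_on with
  | empty => simpa using h
  | insert i S hi ih =>
    rw [Finset.card_insert_of_notMem hi, Finset.insert_union]
    by_cases h' : i ∈ S ∪ X
    · rw [Finset.insert_eq_of_mem h']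
      exact mono ih _ (by omega)
    · exact .col i h' ih

/-- matrices which decompose into small blocks after removal of some rows `R` and columns `X` -/
theorem blocks {m n : ℕ} (A : Fin m → Fin n → ℝ) (R : Finset (Fin m)) (X : Finset (Fin n))
    (f : Fin m → ℕ) (g : Fin n → ℕ) (k : ℕ)
    (hA : ∀ i ∉ R, ∀ j ∉ X, A i j ≠ 0 → f i = g j)
    (hk : ∀ l, (Finset.univ.filter fun i => i ∉ R ∧ f i = l).card +
      (Finset.univ.filter fun j => j ∉ X ∧ g j = l).card ≤ k) :
    Treedepth A (k + R.card + X.card) Finset.univ Finset.univ := by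
  have h1 : ∀ L : ℕ, Treedepth A k (Finset.univ.filter fun i => i ∉ R ∧ f i < L)
      (Finset.univ.filter fun j => j ∉ X ∧ g j < L) := by
    intro L
    induction L with
    | zero => simpa using Treedepth.empty (A := A) k
    | succ L ih =>
      have e1 : (Finset.univ.filter fun i => i ∉ R ∧ f i < L + 1) =
          (Finset.univ.filter fun i => i ∉ R ∧ f i < L) ∪
            Finset.univ.filter fun i => i ∉ R ∧ f i = L := by
        ext i
        simp only [Finset.mem_filter, Finset.mem_univ, true_and, Finset.mem_union, Nat.lt_succ_iff,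
          le_iff_lt_or_eq]
        tauto
      have e2 : (Finset.univ.filter fun j => j ∉ X ∧ g j < L + 1) =
          (Finset.univ.filter fun j => j ∉ X ∧ g j < L) ∪
            Finset.univ.filter fun j => j ∉ X ∧ g j = L := by
        ext i
        simp only [Finset.mem_filter, Finset.mem_univ, true_and, Finset.mem_union, Nat.lt_succ_iff,
          le_iff_lt_or_eq]
        tauto
      rw [e1, e2]
      refine .union ?_ ?_ ?_ ?_ ih ?_
      · rw [Finset.disjoint_left]
        intro i hi hi'
        rw [Finset.mem_filter] at hi hi'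
        omega
      · rw [Finset.disjoint_left]
        intro i hi hi'
        rw [Finset.mem_filter] at hi hi'
        omega
      · intro i hi j hj
        rw [Finset.mem_filter] at hi hj
        by_contra h
        have := hA i hi.2.1 j hj.2.1 h
        omega
      · intro i hi j hj
        rw [Finset.mem_filter] at hi hj
        by_contra h
        have := hA i hi.2.1 j hj.2.1 h
        omega
      · have h2 := add_cols (add_rows (Treedepth.empty (A := A) 0)
          (Finset.univ.filter fun i => i ∉ R ∧ f i = L))
          (Finset.univ.filter fun j => j ∉ X ∧ g j = L)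
        rw [Finset.union_empty, Finset.union_empty, zero_add] at h2
        exact mono h2 _ (hk L)
  obtain ⟨L, hL⟩ : ∃ L, (∀ i, f i < L) ∧ ∀ j, g j < L := by
    refine ⟨∑ i, (f i + 1) + ∑ j, (g j + 1), fun i => ?_, fun j => ?_⟩
    · have : f i + 1 ≤ ∑ i, (f i + 1) :=
        Finset.single_le_sum (f := fun i => f i + 1) (fun i _ => Nat.zero_le _)
          (Finset.mem_univ i)
      omega
    · have : g j + 1 ≤ ∑ j, (g j + 1) :=
        Finset.single_le_sum (f := fun j => g j + 1) (fun j _ => Nat.zero_le _)
          (Finset.mem_univ j)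
      omega
  have h2 := add_cols (add_rows (h1 L) R) X
  have e1 : R ∪ (Finset.univ.filter fun i => i ∉ R ∧ f i < L) = Finset.univ := by
    ext i
    simp only [Finset.mem_union, Finset.mem_filter, Finset.mem_univ, true_and, iff_true]
    have := hL.1 i
    tauto
  have e2 : X ∪ (Finset.univ.filter fun j => j ∉ X ∧ g j < L) = Finset.univ := by
    ext j
    simp only [Finset.mem_union, Finset.mem_filter, Finset.mem_univ, true_and, iff_true]
    have := hL.2 j
    tauto
  rwa [e1, e2] at h2

/-- real data -/
theorem real_part (D m n : ℕ) (A : Fin m → Fin n → ℝ) (b : Fin m → ℝ) (c : Fin n → ℝ)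
    (hA : Treedepth A D Finset.univ Finset.univ) :
    ∃ S : Finset (Fin n → ℝ), (∀ e ∈ S, e ≠ 0) ∧
      ∀ v ∈ (Feasible A b).extremePoints ℝ,
        (∃ z, Optimal (Feasible A b) z v ∧ ∀ e ∈ S, val z e ≠ 0) ∧
        ∀ z, Optimal (Feasible A b) z v → (∀ e ∈ S, val z e ≠ 0) →
          (∃ N x, ShadowRun (Feasible A b) c z v N x ∧ (Optimal (Feasible A b) c (x N) ∨
            ∃ d, ShadowRay (Feasible A b) c z (x N) d)) ∧
          ∀ N x, ShadowRun (Feasible A b) c z v N x → N ≤ (3 * (m + n)) ^ ((2 * D + 4) ^ D) := by
  have hP : Feasible A b = N477.MD.Poly (N477.RS.arow A) (N477.RS.arhs b) := by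
    ext x
    exact N477.RS.mem_arow.symm
  rw [hP]
  obtain ⟨S, hS0, hS⟩ := N588.TD.exists_hyp (N477.RS.arow A) (N477.RS.arhs b) c
  refine ⟨S, hS0, fun v hv => ⟨N588.TD.exists_obj hv S hS0, fun z hz hgz => ?_⟩⟩
  have hg := hS z hgz
  refine ⟨?_, fun N x hx => ?_⟩
  · obtain ⟨N, x, h0, h1, -, h2⟩ := N588.TD.exists_run hg hv hz
    exact ⟨N, x, ⟨h0, h1⟩, h2⟩
  · have h1 := N588.TD.run_le hv hz hx.1 hx.2
    have h2 := N588.TD.vis_le (nested hA) b c z hg
    rw [N588.TD.Bd_eq] at h2
    rcases Nat.eq_zero_or_pos n with hn | hn
    · have hN : N = 0 := by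
        by_contra hN
        have h3 := (hx.2 0 (Nat.pos_of_ne_zero hN)).2.2.2.1
        subst hn
        simp [val] at h3
      omega
    · omega

/-- **The shadow vertex rule is polynomial for bounded incidence treedepth.** -/
theorem result :
    -- (1) arbitrary real data: all starts outside finitely many hyperplanes
    (∀ (D m n : ℕ) (A : Fin m → Fin n → ℝ) (b : Fin m → ℝ) (c : Fin n → ℝ),
      Treedepth A D Finset.univ Finset.univ →
      ∃ S : Finset (Fin n → ℝ), (∀ e ∈ S, e ≠ 0) ∧
        ∀ v ∈ (Feasible A b).extremePoints ℝ,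
          (∃ z, Optimal (Feasible A b) z v ∧ ∀ e ∈ S, val z e ≠ 0) ∧
          ∀ z, Optimal (Feasible A b) z v → (∀ e ∈ S, val z e ≠ 0) →
            (∃ N x, ShadowRun (Feasible A b) c z v N x ∧ (Optimal (Feasible A b) c (x N) ∨
              ∃ d, ShadowRay (Feasible A b) c z (x N) d)) ∧
            ∀ N x, ShadowRun (Feasible A b) c z v N x →
              N ≤ (3 * (m + n)) ^ ((2 * D + 4) ^ D)) ∧
    -- (2) the bit model: one deterministic version of the simplex method
    (∃ g : List Bool → List Bool, PolyTime g ∧
      (∀ (m n : ℕ) (A : Fin m → Fin n → ℚ) (b : Fin m → ℚ) (c v : Fin n → ℚ),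
        re v ∈ Set.extremePoints ℝ (polyhedron A b) →
        ∃ (N : ℕ) (x : ℕ → Fin n → ℚ) (d : Option (Fin n → ℚ)),
          IsSimplexPath (polyhedron A b) c v N x d ∧
          (∀ T, g (query T A b c v) = noAnswer ∨ g (query T A b c v) = answer N x d) ∧
          (∃ T, g (query T A b c v) = answer N x d) ∧
          ∀ D, Treedepth (fun i j => (A i j : ℝ)) D Finset.univ Finset.univ →
            N ≤ (3 * (m + n)) ^ ((2 * D + 4) ^ D) ∧
            ∀ T, (3 * (m + n)) ^ ((2 * D + 4) ^ D) < T →
              g (query T A b c v) = answer N x d) ∧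
      -- with `T` from the length of the input it is polynomial
      ∀ D : ℕ, ∃ h : List Bool → List Bool, PolyTime h ∧
        ∀ (m n : ℕ) (A : Fin m → Fin n → ℚ) (b : Fin m → ℚ) (c v : Fin n → ℚ),
          h (input A b c v) =
            g (query ((3 * (input A b c v).length) ^ ((2 * D + 4) ^ D)) A b c v) ∧
          (3 * (m + n)) ^ ((2 * D + 4) ^ D) <
            (3 * (input A b c v).length) ^ ((2 * D + 4) ^ D)) ∧
    -- the start vertex is not longer than a polynomial in the length of the program
    (∃ q : Polynomial ℕ, ∀ (m n : ℕ) (A : Fin m → Fin n → ℚ) (b : Fin m → ℚ) (c v : Fin n → ℚ),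
      re v ∈ Set.extremePoints ℝ (polyhedron A b) →
      (input A b c v).length ≤ q.eval (program A b c).length) ∧
    -- (3) an example: after removal of the rows `R` and the columns `X` the matrix decomposes
    -- into blocks with at most `k` rows and columns
    ∀ (m n : ℕ) (A : Fin m → Fin n → ℝ) (R : Finset (Fin m)) (X : Finset (Fin n))
      (f : Fin m → ℕ) (g : Fin n → ℕ) (k : ℕ),
      (∀ i ∉ R, ∀ j ∉ X, A i j ≠ 0 → f i = g j) →
      (∀ l, (Finset.univ.filter fun i => i ∉ R ∧ f i = l).card +
        (Finset.univ.filter fun j => j ∉ X ∧ g j = l).card ≤ k) →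
      Treedepth A (k + R.card + X.card) Finset.univ Finset.univ := by
  refine ⟨real_part, ⟨fun s => bits (NPC.N588TD.solve s), NPC.N588TD.poly_solve,
    fun m n A b c v hv => ?_, fun D => ⟨fun s => bits (NPC.N588TD.solveD D s),
      NPC.N588TD.poly_solveD D, fun m n A b c v => ⟨?_, ?_⟩⟩⟩,
    NPC.Y644.exists_vertex_bound, fun m n A R X f g k h1 h2 => blocks A R X f g k h1 h2⟩
  · have hquery : ∀ T : ℕ, NPC.N588TD.solve (query T A b c v) =
        (N477.RS.run1 (Y644.QS.inp A b c v) T
          (N588.TD.wts (sz (Y644.QS.inp A b c v)))).head? := fun T => by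
      have h := NPC.N588TD.solve_bits T (Y644.QS.inp A b c v)
      rw [← h]
      rfl
    obtain ⟨o, ho, T0, hT0⟩ := N588.TD.run_all (c := c) hv
    obtain ⟨N, x, d, h1, h2, -⟩ := N477.RS.run1_sound (o := o) (c := c) (T := T0)
      (w := N588.TD.wts (sz (Y644.QS.inp A b c v))) hv (by rw [hT0]; simp)
    have h2' : IsSimplexPath (polyhedron A b) c v N x d :=
      ⟨h2.1, h2.2.1, h2.2.2.1, fun hd => ⟨(h2.2.1 N le_rfl).1, h2.2.2.2.1 hd⟩, h2.2.2.2.2⟩
    have hT : ∀ T, N477.RS.run1 (Y644.QS.inp A b c v) T
        (N588.TD.wts (sz (Y644.QS.inp A b c v))) = [o] →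
        bits (NPC.N588TD.solve (query T A b c v)) = answer N x d := fun T h => by
      rw [hquery T, h, List.head?_cons, h1]
      rfl
    refine ⟨N, x, d, h2', fun T => ?_, ⟨T0, hT T0 hT0⟩, fun D hD => ?_⟩
    · rcases ho T with h | h
      · left
        show bits (NPC.N588TD.solve (query T A b c v)) = noAnswer
        rw [hquery T, h]
        rfl
      · exact Or.inr (hT T h)
    · have hcomp : ∀ T, (3 * (m + n)) ^ ((2 * D + 4) ^ D) + 1 ≤ T + (m + n) →
          N477.RS.run1 (Y644.QS.inp A b c v) T
            (N588.TD.wts (sz (Y644.QS.inp A b c v))) = [o] := fun T hT => by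
        have h3 := N588.TD.run_ok (c := c) hv (nested hD) (T := T) (by
          rw [N588.TD.Bd_eq]; exact hT)
        exact (ho T).resolve_left h3
      refine ⟨?_, fun T hBT => hT T (hcomp T (by omega))⟩
      rcases Nat.eq_zero_or_pos (m + n) with hmn | hmn
      · have hN := N588.TD.path_zero h2 (by omega)
        omega
      · obtain ⟨N', x', d', h1', h2'', h3'⟩ := N477.RS.run1_sound (o := o) (c := c)
          (T := (3 * (m + n)) ^ ((2 * D + 4) ^ D))
          (w := N588.TD.wts (sz (Y644.QS.inp A b c v))) hv (by
            rw [hcomp _ (by omega)]; simp)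
        have hl := congrArg (fun p : Y644.QS.Outp => p.1.length) (h1.symm.trans h1')
        simp only [List.length_map, List.length_range] at hl
        omega
  · have h := NPC.N588TD.solveD_bits D (Y644.QS.inp A b c v)
    have h' := NPC.N588TD.solve_bits ((3 * (input A b c v).length) ^ ((2 * D + 4) ^ D))
      (Y644.QS.inp A b c v)
    have hlen : (input A b c v).length = sz (Y644.QS.inp A b c v) := bits_length _
    show bits (NPC.N588TD.solveD D (bits (Y644.QS.inp A b c v))) = bits (NPC.N588TD.solve
      (bits (List.replicate ((3 * (input A b c v).length) ^ ((2 * D + 4) ^ D)) (),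
        Y644.QS.inp A b c v)))
    rw [h, h', hlen]
  · have hL : m + n < (input A b c v).length := Y644.QS.le_sz_inp
    exact Nat.pow_lt_pow_left (by omega) (by positivity)

end Pool.Agent.Results.MP_4d246d_lc.BoundedTreedepth
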