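import Pool.Agent.N477.MD8

set_option autoImplicit false

/-!
# Short monotone edge paths for linear programs of bounded circuit imbalance

We consider linear programs `max c x` over `P = {x : A x ≤ b, x ≥ 0}` in `n` variables, with an
arbitrary number `m` of constraints.

`Imbalance A ρ σ κ` says: after scaling the constraint rows `A_i` by `ρ i` and the sign
constraints by `σ j`, whenever a row of the system is a combination of `n` linearly independent
rows of the system, the coefficients are at most `κ` in absolute value.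

We prove that from every vertex of `P` there is a run of the simplex method (each step goes along
an edge of `P` and strictly increases the objective) with at most `36 n^5 κ^3` pivots, which ends
at an optimal vertex or at a vertex with an unbounded improving edge.  For integer matrices all of
whose subdeterminants are at most `Δ` the bound is `36 n^5 Δ^3`, for totally unimodular matrices
it is `36 n^5`, for all real `b` and `c`.  Moreover the runs are concatenations of at most `n`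
random shadow vertex runs: the last part of `result` is a lower bound for the probability that
one of these runs is short.
-/

namespace Pool.Agent.Results.MP_4d246d_lc.MonotoneDiameter

open Matrix Set MeasureTheory ENNReal Pool.Agent.N477.MD

variable {m n : ℕ}

/-- The feasible set `P = {x : A x ≤ b, x ≥ 0}`. -/
def Feasible (A : Matrix (Fin m) (Fin n) ℝ) (b : Fin m → ℝ) : Set (Fin n → ℝ) :=
  {x | (∀ i, ∑ j, A i j * x j ≤ b i) ∧ ∀ j, 0 ≤ x j}

/-- The objective function `f(x) = ∑ c_j x_j`. -/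
def val (c x : Fin n → ℝ) : ℝ := ∑ j, c j * x j

/-- `x` maximises the objective `c` on `P`. -/
def Optimal (P : Set (Fin n → ℝ)) (c x : Fin n → ℝ) : Prop :=
  x ∈ P ∧ ∀ y ∈ P, val c y ≤ val c x

/-- An improving pivot: `x` and `y` are vertices of `P`, the segment between them is an edge
(an exposed face) of `P`, and the objective strictly increases. -/
def Pivot (P : Set (Fin n → ℝ)) (c x y : Fin n → ℝ) : Prop :=
  x ∈ P.extremePoints ℝ ∧ y ∈ P.extremePoints ℝ ∧ IsExposed ℝ P (segment ℝ x y) ∧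
    val c x < val c y

/-- `P` has an unbounded edge (an exposed ray) at `x` along which the objective increases. -/
def UnboundedAt (P : Set (Fin n → ℝ)) (c x : Fin n → ℝ) : Prop :=
  ∃ d : Fin n → ℝ, IsExposed ℝ P {z | ∃ t : ℝ, 0 ≤ t ∧ z = x + t • d} ∧ 0 < val c d

/-- A full run of the simplex method which starts at the vertex `v` and makes `N` improving
pivots: it stops at an optimal vertex or at a vertex with an unbounded improving edge. -/
def Run (P : Set (Fin n → ℝ)) (c v : Fin n → ℝ) (N : ℕ) : Prop :=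
  ∃ x : ℕ → Fin n → ℝ, x 0 = v ∧ (∀ k < N, Pivot P c (x k) (x (k + 1))) ∧
    x N ∈ P.extremePoints ℝ ∧ (Optimal P c (x N) ∨ UnboundedAt P c (x N))

/-- The rows of the system `A x ≤ b`, `-x ≤ 0`, scaled by `ρ` and `σ`. -/
def row (A : Matrix (Fin m) (Fin n) ℝ) (ρ : Fin m → ℝ) (σ : Fin n → ℝ) :
    Fin m ⊕ Fin n → Fin n → ℝ :=
  Sum.elim (fun i => ρ i • A i) (fun j => -Pi.single j (σ j))

/-- The system with the scaled rows has circuit imbalance at most `κ`: if a row is a combination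
of `n` linearly independent rows, then the coefficients are at most `κ` in absolute value. -/
def Imbalance (A : Matrix (Fin m) (Fin n) ℝ) (ρ : Fin m → ℝ) (σ : Fin n → ℝ) (κ : ℝ) : Prop :=
  ∀ (B : Fin n → Fin m ⊕ Fin n) (l : Fin m ⊕ Fin n) (β : Fin n → ℝ),
    LinearIndependent ℝ (fun k => row A ρ σ (B k)) →
    row A ρ σ l = ∑ k, β k • row A ρ σ (B k) → ∀ k, |β k| ≤ κ

/-- The constraint `p` holds with equality at `x`. -/
def Tight (A : Matrix (Fin m) (Fin n) ℝ) (b : Fin m → ℝ) (p : Fin m ⊕ Fin n)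
    (x : Fin n → ℝ) : Prop :=
  Sum.elim (fun i => ∑ j, A i j * x j = b i) (fun j => x j = 0) p

/-- A shadow run with `N` pivots from `v` to `w`: all pivots are improving for `c`, all vertices
of the run maximise one of the objectives `z + s c'`, `0 ≤ s ≤ K`, and the last vertex maximises
`z + K c'`. -/
def ShadowRun (P : Set (Fin n → ℝ)) (c c' z : Fin n → ℝ) (K : ℝ) (v : Fin n → ℝ) (N : ℕ)
    (w : Fin n → ℝ) : Prop :=
  ∃ x : ℕ → Fin n → ℝ, x 0 = v ∧ x N = w ∧
    (∀ k < N, Pivot P c (x k) (x (k + 1)) ∧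
      (∃ s ∈ Icc (0:ℝ) K, Optimal P (z + s • c') (x k)) ∧
      ∃ s ∈ Icc (0:ℝ) K, Optimal P (z + s • c') (x (k + 1))) ∧
    w ∈ P.extremePoints ℝ ∧ Optimal P (z + K • c') w

theorem feasible_eq {A : Matrix (Fin m) (Fin n) ℝ} {b : Fin m → ℝ} {ρ : Fin m → ℝ}
    {σ : Fin n → ℝ} (hρ : ∀ i, 0 < ρ i) (hσ : ∀ j, 0 < σ j) :
    Feasible A b = Poly (rowsP ρ σ A) (rhsP ρ b) := by
  ext x
  exact (mem_polyP hρ hσ).symm

theorem imbalance_iff {A : Matrix (Fin m) (Fin n) ℝ} {ρ : Fin m → ℝ} {σ : Fin n → ℝ} {κ : ℝ} :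
    Imbalance A ρ σ κ ↔ Bal (stack ρ σ A) κ := by
  constructor
  · intro h
    refine bal_of_signs (a := row A ρ σ) h id (Sum.elim (fun _ => 1) (fun _ => -1)) ?_ ?_
    · rintro (i | j) <;> simp
    · rintro (i | j) <;> simp [row, stack]
  · intro h
    refine bal_of_signs h id (Sum.elim (fun _ => 1) (fun _ => -1)) ?_ ?_
    · rintro (i | j) <;> simp
    · rintro (i | j) <;> simp [row, stack]

theorem run_of_path {P : Set (Fin n → ℝ)} {c v w : Fin n → ℝ} {N : ℕ}
    (hp : Path (Step P c) N v w) (hw : w ∈ P.extremePoints ℝ)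
    (h : Optimal P c w ∨ UnboundedAt P c w) : Run P c v N := by
  obtain ⟨f, h0, hN, hf⟩ := hp.exists_seq
  refine ⟨f, h0, hf, ?_, ?_⟩
  · rw [hN]; exact hw
  · rw [hN]; exact h

/-- short runs for systems of bounded imbalance -/
theorem run_of_imbalance {A : Matrix (Fin m) (Fin n) ℝ} {ρ : Fin m → ℝ} {σ : Fin n → ℝ}
    (hρ : ∀ i, 0 < ρ i) (hσ : ∀ j, 0 < σ j) {κ : ℝ} (hκ : Imbalance A ρ σ κ)
    (b : Fin m → ℝ) (c : Fin n → ℝ) {v : Fin n → ℝ} (hv : v ∈ (Feasible A b).extremePoints ℝ) :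
    ∃ N : ℕ, (N:ℝ) ≤ 36 * (n:ℝ) ^ 5 * κ ^ 3 ∧ Run (Feasible A b) c v N := by
  rw [feasible_eq hρ hσ] at hv ⊢
  have hbal := imbalance_iff.1 hκ
  obtain ⟨N, w, hN, hw, hp, hm⟩ := lp_path hρ hσ A hbal b c hv
  refine ⟨N, ?_, run_of_path hp hw hm⟩
  have h1 : (N:ℝ) ≤ ((n * Lc n κ : ℕ) : ℝ) := by exact_mod_cast hN
  refine h1.trans ?_
  rcases Nat.eq_zero_or_pos n with h0 | h0
  · subst h0
    simp
  · have hκ1 : 1 ≤ κ := by
      apply one_le_kappa (a := stack ρ σ A) hbal (S := Sum.inr) ?_ ⟨0, h0⟩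
      have hli : LinearIndependent ℝ (fun j : Fin n => (Pi.single j (1:ℝ) : Fin n → ℝ)) := by
        have h := (Pi.basisFun ℝ (Fin n)).linearIndependent
        have e : (fun j : Fin n => (Pi.single j (1:ℝ) : Fin n → ℝ)) = ⇑(Pi.basisFun ℝ (Fin n)) := by
          funext j
          rw [Pi.basisFun_apply]
        rw [e]
        exact h
      rw [Fintype.linearIndependent_iff] at hli ⊢
      intro g hg j
      have h2 := hli (fun j => g j * σ j) (by
        rw [← hg]
        refine Finset.sum_congr rfl fun k _ => ?_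
        show (g k * σ k) • Pi.single k (1:ℝ) = g k • Pi.single k (σ k)
        rw [← Pi.single_smul, ← Pi.single_smul]
        simp) j
      exact (mul_eq_zero.1 h2).resolve_right (hσ j).ne'
    push_cast
    have h3 : ((Lc n κ : ℕ) : ℝ) ≤ 36 * (n:ℝ) ^ 4 * κ ^ 3 :=
      Nat.floor_le (by positivity)
    calc (n:ℝ) * (Lc n κ : ℕ) ≤ n * (36 * (n:ℝ) ^ 4 * κ ^ 3) :=
          mul_le_mul_of_nonneg_left h3 (Nat.cast_nonneg n)
      _ = 36 * (n:ℝ) ^ 5 * κ ^ 3 := by ring

theorem imbalance_of_det {A : Matrix (Fin m) (Fin n) ℤ} {Δ : ℤ}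
    (hA : ∀ (k : ℕ) (f : Fin k → Fin m) (g : Fin k → Fin n), |(A.submatrix f g).det| ≤ Δ) :
    Imbalance (A.map (fun z : ℤ => (z:ℝ))) (fun _ => 1) (fun _ => 1) (Δ:ℝ) :=
  imbalance_iff.2 (bal_of_det A hA)

theorem tight_iff {A : Matrix (Fin m) (Fin n) ℝ} {b : Fin m → ℝ} {ρ : Fin m → ℝ}
    {σ : Fin n → ℝ} (hρ : ∀ i, 0 < ρ i) (hσ : ∀ j, 0 < σ j) (p : Fin m ⊕ Fin n)
    (x : Fin n → ℝ) : p ∈ tight (rowsP ρ σ A) (rhsP ρ b) x ↔ Tight A b p x := by
  rcases p with i | j
  · show (ρ i • A i) ⬝ᵥ x = ρ i * b i ↔ ∑ j, A i j * x j = b i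
    rw [smul_dotProduct, smul_eq_mul]
    exact ⟨fun h => mul_left_cancel₀ (hρ i).ne' h, fun h => by rw [← h]; rfl⟩
  · show (-Pi.single j (σ j)) ⬝ᵥ x = 0 ↔ x j = 0
    rw [neg_dotProduct, single_dotProduct, neg_eq_zero]
    exact ⟨fun h => (mul_eq_zero.1 h).resolve_left (hσ j).ne', fun h => by rw [h, mul_zero]⟩

/-- **Main theorem.**

(1) *Bounded circuit imbalance.*  If the system `A x ≤ b`, `x ≥ 0` has imbalance at most `κ` for
some positive scaling of its rows, then from every vertex there is a full run of the simplex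
method with at most `36 n^5 κ^3` pivots.

(2) The same with `κ = Δ` for integer matrices with all subdeterminants at most `Δ`.

(3) The same with `κ = 1` for totally unimodular matrices.

(4) *A randomised rule.*  Let `P` be bounded and of imbalance at most `κ`, let
`c = ∑ y_k row (S k)` with `y ≥ 0` be a representation of the objective in terms of `n`
independent rows tight at a feasible point (an optimal basis).  Let `I` be a set of indices such
that the constraints `S k`, `k ∈ I`, are tight at the vertex `v`, and let `y_i > 0` be maximal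
among the `y_k`, `k ∉ I`.  Let `B` be `n` independent rows tight at `v` containing the `S k`,
`k ∈ I`.  Draw `μ` at random from the cube `[1,2]^n`.  Then the probability that there is no
shadow run improving `c`, with fewer than `T` pivots, from `v` to a vertex at which the `S k`
with `k ∈ I` and `k = i` are all tight, starting with the objective
`∑ (R_k + μ_k) row (B k)`, is at most `36 n^4 κ^3 / T`. -/
theorem result :
    (∀ (m n : ℕ) (A : Matrix (Fin m) (Fin n) ℝ) (ρ : Fin m → ℝ) (σ : Fin n → ℝ) (κ : ℝ),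
      (∀ i, 0 < ρ i) → (∀ j, 0 < σ j) → Imbalance A ρ σ κ →
      ∀ (b : Fin m → ℝ) (c v : Fin n → ℝ), v ∈ (Feasible A b).extremePoints ℝ →
        ∃ N : ℕ, (N:ℝ) ≤ 36 * (n:ℝ) ^ 5 * κ ^ 3 ∧ Run (Feasible A b) c v N) ∧
    (∀ (m n : ℕ) (A : Matrix (Fin m) (Fin n) ℤ) (Δ : ℤ),
      (∀ (k : ℕ) (f : Fin k → Fin m) (g : Fin k → Fin n), |(A.submatrix f g).det| ≤ Δ) →
      ∀ (b : Fin m → ℝ) (c v : Fin n → ℝ),
        v ∈ (Feasible (A.map (fun z : ℤ => (z:ℝ))) b).extremePoints ℝ →
        ∃ N : ℕ, (N:ℤ) ≤ 36 * (n:ℤ) ^ 5 * Δ ^ 3 ∧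
          Run (Feasible (A.map (fun z : ℤ => (z:ℝ))) b) c v N) ∧
    (∀ (m n : ℕ) (A : Matrix (Fin m) (Fin n) ℤ), A.IsTotallyUnimodular →
      ∀ (b : Fin m → ℝ) (c v : Fin n → ℝ),
        v ∈ (Feasible (A.map (fun z : ℤ => (z:ℝ))) b).extremePoints ℝ →
        ∃ N : ℕ, N ≤ 36 * n ^ 5 ∧ Run (Feasible (A.map (fun z : ℤ => (z:ℝ))) b) c v N) ∧
    (∀ (m n : ℕ) (A : Matrix (Fin m) (Fin n) ℝ) (ρ : Fin m → ℝ) (σ : Fin n → ℝ) (κ : ℝ),
      (∀ i, 0 < ρ i) → (∀ j, 0 < σ j) → Imbalance A ρ σ κ →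
      ∀ (b : Fin m → ℝ), Bornology.IsBounded (Feasible A b) →
      ∀ (S : Fin n → Fin m ⊕ Fin n) (y w : Fin n → ℝ),
        LinearIndependent ℝ (fun k => row A ρ σ (S k)) → w ∈ Feasible A b →
        (∀ k, Tight A b (S k) w) →
      ∀ (I : Finset (Fin n)) (i : Fin n), i ∉ I → 0 < y i → (∀ k ∉ I, 0 ≤ y k ∧ y k ≤ y i) →
      ∀ (B : Fin n → Fin m ⊕ Fin n) (v : Fin n → ℝ), v ∈ (Feasible A b).extremePoints ℝ →
        LinearIndependent ℝ (fun k => row A ρ σ (B k)) → (∀ k, Tight A b (B k) v) →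
        (∀ k ∈ I, ∃ j, B j = S k) →
      ∀ (R : Fin n → ℝ),
        (∀ j, (∃ k ∈ I, S k = B j) → R j = (2 * n * κ + 1) * (n * κ)) →
        (∀ j, (¬ ∃ k ∈ I, S k = B j) → R j = 0) →
      ∀ T : ℕ, (T : ℝ≥0∞) * volume {μ : Fin n → ℝ | (∀ k, 1 ≤ μ k ∧ μ k ≤ 2) ∧
          ¬ ∃ N w', N < T ∧
            ShadowRun (Feasible A b) (∑ k, y k • row A ρ σ (S k))
              (∑ k ∈ Iᶜ, (y k / y i) • row A ρ σ (S k))
              (∑ k, (R k + μ k) • row A ρ σ (B k)) (2 * n * κ + 1) v N w' ∧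
            ∀ k ∈ insert i I, Tight A b (S k) w'} ≤
        ENNReal.ofReal (36 * (n:ℝ) ^ 4 * κ ^ 3)) := by
  refine ⟨?_, ?_, ?_, ?_⟩
  · intro m n A ρ σ κ hρ hσ hκ b c v hv
    exact run_of_imbalance hρ hσ hκ b c hv
  · intro m n A Δ hA b c v hv
    obtain ⟨N, hN, hr⟩ := run_of_imbalance (fun _ => one_pos) (fun _ => one_pos)
      (imbalance_of_det hA) b c hv
    exact ⟨N, by exact_mod_cast hN, hr⟩
  · intro m n A hA b c v hv
    rw [Matrix.isTotallyUnimodular_iff] at hA
    obtain ⟨N, hN, hr⟩ := run_of_imbalance (fun _ => one_pos) (fun _ => one_pos)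
      (imbalance_of_det (Δ := 1) (fun k f g => by
        obtain ⟨s, hs⟩ := hA k f g
        rw [← hs]
        cases s <;> simp)) b c hv
    refine ⟨N, ?_, hr⟩
    have h1 : (N:ℝ) ≤ 36 * (n:ℝ) ^ 5 := by simpa using hN
    exact_mod_cast h1
  · classical
    intro m n A ρ σ κ hρ hσ hκ b hbd S y w hS hw hSw I i hi hyi hy B v hv hB hBv hBI R hR1 hR2 T
    rw [feasible_eq hρ hσ] at hv hw hbd ⊢
    have hrow : row A ρ σ = rowsP ρ σ A := rfl
    rw [hrow] at hS hB ⊢
    have hcomp : IsCompact (Poly (rowsP ρ σ A) (rhsP ρ b)) :=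
      Metric.isCompact_of_isClosed_isBounded isClosed_poly hbd
    have hbal : Bal (rowsP ρ σ A) κ := hκ
    have hoff : R = stageOff κ S B I := by
      ext j
      unfold stageOff
      by_cases h : ∃ k ∈ I, S k = B j
      · rw [hR1 j h, if_pos]
        obtain ⟨k, hk, hk2⟩ := h
        exact ⟨k, hk, hk2⟩
      · rw [hR2 j h, if_neg]
        rintro ⟨k, hk, hk2⟩
        exact h ⟨k, hk, hk2⟩
    have hobj : (∑ k ∈ Iᶜ, (y k / y i) • rowsP ρ σ A (S k)) =
        stageObj (rowsP ρ σ A) S y I i := by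
      unfold stageObj
      rw [← Finset.sum_subset (Finset.subset_univ Iᶜ)]
      · refine Finset.sum_congr rfl fun k hk => ?_
        rw [if_neg (Finset.mem_compl.1 hk)]
      · intro k _ hk
        rw [if_pos (by simpa using hk), zero_smul]
    have hst := one_stage_prob hcomp hbal hS (y := y) hw
      (fun k => (tight_iff hρ hσ _ _).2 (hSw k)) I hi hyi hy hv
      (fun k hk => by
        obtain ⟨j, hj⟩ := hBI k hk
        rw [← hj]
        exact (tight_iff hρ hσ _ _).2 (hBv j))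
      (fun k => (tight_iff hρ hσ _ _).2 (hBv k))
      (by
        rintro _ ⟨k, hk, rfl⟩
        exact hBI k hk) hB T
    refine le_trans (mul_le_mul' le_rfl (measure_mono ?_)) hst
    rintro μ ⟨hμ, hno⟩
    refine ⟨⟨fun k => (hμ k).1, fun k => (hμ k).2⟩, fun hex => hno ?_⟩
    obtain ⟨N, w', hN, hw', hp, hm, ht⟩ := hex
    obtain ⟨f, h0, hfN, hf⟩ := hp.exists_seq
    refine ⟨N, w', hN, ⟨f, h0, hfN, fun k hk => ?_, hw', ?_⟩,
      fun k hk => (tight_iff hρ hσ _ _).1 (ht k hk)⟩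
    · obtain ⟨h1, h2, h3⟩ := hf k hk
      rw [hobj, hoff]
      exact ⟨h1, h2, h3⟩
    · rw [hobj, hoff]
      exact hm

end Pool.Agent.Results.MP_4d246d_lc.MonotoneDiameter
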