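import Pool.Agent.N597.QP.Final
set_option autoImplicit false

/-!
# A deterministic pivot rule which sees only tight and improving constraints needs quasi-polynomially
many pivots on all nondegenerate linear programs

For all `m ≥ 1` and `n` there is one deterministic pivot rule with the following property. At every
vertex it sees only which of the `m` constraints are tight there and which of them can be left along
an improving edge, and it remembers what it has seen before (`seen`). It knows neither the
coefficients of the linear program nor the values of the objective function. On every real linear
program `max c q`, `A q ≤ b` with `n` variables and `m` constraints which is nondegenerate (at every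
vertex exactly `n` constraints are tight) and whose objective function is bounded above, it reaches
an optimal vertex from every vertex by at most `(75 m ^ 7) ^ (⌊log₂ m⌋ + 1)` improving pivots. There
is no bound on the computing time between the pivots.

For comparison: every rule of this kind needs `2 ^ (n ^ (1/2 - o(1)))` steps on some abstract objective
function on the `n`-cube (starting result `SquareRootExponent`), and no polynomial bound is known for
the length of the shortest improving paths; the known bound (Kalai and Kleitman) is
quasi-polynomial, too. So for linear programs, local combinatorial information is enough to find
improving paths of about the length which is known to exist.

Proof. The rule keeps the list of all combinatorial types of linear programs (sets of vertices and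
improving sets) which agree with what it has seen; there are `exp (O (m ^ 4))` types by Warren's
theorem. In a face of the polyhedron in which only the constraints in a set `ρ` are kept (`ρ` depends
on the type), the facets are ordered by the maxima of the objective function. The Kalai-Kleitman
argument gives a walk (recursively, with only the lower half of the facets) which either reaches the
top or meets a facet in the upper half; from there one goes to the top of this facet and leaves it,
and then only half of the facets are left. For each type consistent with the history the strategy
knows which facet of its upper half would be met; it chooses the facet `j` which is right for the
largest number of types. If the top is not reached within the time which would be enough for these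
types, the fraction `1 / (m + 1)` of all types has been refuted, and the rule tries again from where
it is. An amortized analysis of the costs in terms of the logarithm of the number of types shows
that the number of attempts is only multiplied by a polynomial factor at every halving.
-/

namespace Pool.Agent.Results.MP_4d246d_lc.QuasiPolynomial

open Finset Matrix Pool.Agent.N597.QP

/-- Let `m ≥ 1`. There is a deterministic pivot rule (a function of the list of the observations
(tight constraints, constraints which can be left along an improving edge), the present one first)
such that for all real `A`, `b`, `c` with `m` constraints and `n` variables, if all vertices are
nondegenerate and `c` is bounded above on the feasible region, then from every vertex `q₀` the rule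
reaches an optimal vertex after at most `(75 m ^ 7) ^ (⌊log₂ m⌋ + 1)` pivots: `q 0, …, q T` are
vertices, `q (t + 1)` has all tight constraints of `q t` except the one which the rule names, and
the values increase. -/
theorem result (m n : ℕ) (hm : 1 ≤ m) :
    ∃ rule : List (Finset (Fin m) × Finset (Fin m)) → Fin m,
      ∀ (A : Fin m → Fin n → ℝ) (b : Fin m → ℝ) (c : Fin n → ℝ), Nondeg A b →
        (∃ μ, ∀ p, Feas A b p → c ⬝ᵥ p ≤ μ) → ∀ q₀ : Fin n → ℝ, IsVertex A b q₀ →
        ∃ (T : ℕ) (q : ℕ → Fin n → ℝ), q 0 = q₀ ∧ (∀ t ≤ T, IsVertex A b (q t)) ∧
          (∀ t < T, c ⬝ᵥ q t < c ⬝ᵥ q (t + 1) ∧
            rule (seen A b c q t) ∈ improv A b c (q t) ∧
            (tight A b (q t)).erase (rule (seen A b c q t)) ⊆ tight A b (q (t + 1))) ∧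
          (∀ p, Feas A b p → c ⬝ᵥ p ≤ c ⬝ᵥ q T) ∧
          T ≤ (75 * m ^ 7) ^ (Nat.log 2 m + 1) :=
  linear_programs m n hm

end Pool.Agent.Results.MP_4d246d_lc.QuasiPolynomial
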