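import Pool.Agent.N477.RS10

set_option autoImplicit false

/-!
# The random shadow vertex rule, for all linear programs of small imbalance simultaneously

Linear programs `max c x`, `A x ≤ b`, `x ≥ 0` with `n` variables and any number of constraints;
the system has imbalance at most `κ` if, whenever one of the rows `A_i`, `-e_j` is a linear
combination of `n` independent ones, the coefficients are at most `κ` in absolute value. This
holds with `κ = Δ` if `A` is integral and all its subdeterminants are at most `Δ`, and with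
`κ = 1` if `A` is totally unimodular.

The rule: let `p = ∑ w_k a_k`, where the `a_k` are `n` independent rows which are tight at the
start vertex (multiplied by a common denominator), and the `w_k` are the given weights. At the
current vertex take the edge direction `d` with `c d > 0` for which `p d / c d` is as large as
possible. This is the shadow vertex rule for the start objective `p`; here it is made to work for
all linear programs, degenerate and unbounded ones included. The algorithm tries the rows of the
given table of weights one after the other, with at most `T` pivots each, and returns the first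
complete path.

We show that the algorithm is computed by a Turing machine in polynomial time (`T` in unary), that
it never makes a mistake, and that, for every `L`, a table of `(2 L + 1) L` independent random
numbers from `[2 ^ (7 L + 3), 2 ^ (7 L + 4))` is, with probability at least `1 - 2 ^ (-L)`, good
for *all* linear programs of bit length at most `L`, all start vertices, and all
`T ≥ 72 n ^ 4 κ ^ 3` simultaneously. So there is a version of the simplex method for
linear programs with polynomially bounded imbalance (for example with totally unimodular matrices)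
which runs in polynomial time, and whose only nonuniform or random part is a table which depends
on `L` alone.
-/

namespace Pool.Agent.Results.MP_4d246d_lc.RandomShadowVertex

open Pool.Agent.NPC

/-- the polyhedron `A x ≤ b`, `x ≥ 0` -/
def polyhedron {m n : ℕ} (A : Fin m → Fin n → ℚ) (b : Fin m → ℚ) : Set (Fin n → ℝ) :=
  {x | (∀ i, ∑ j, (A i j : ℝ) * x j ≤ b i) ∧ ∀ j, 0 ≤ x j}

/-- the objective function `c x` -/
noncomputable def obj {n : ℕ} (c : Fin n → ℚ) (x : Fin n → ℝ) : ℝ := ∑ j, (c j : ℝ) * x j

/-- rational vectors as real vectors -/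
noncomputable def re {n : ℕ} (x : Fin n → ℚ) : Fin n → ℝ := fun j => (x j : ℝ)

/-- `x` and `y` are joined by an edge of `P` on which the objective function increases -/
def ImprovingEdge {n : ℕ} (P : Set (Fin n → ℝ)) (c x y : Fin n → ℚ) : Prop :=
  IsExposed ℝ P (segment ℝ (re x) (re y)) ∧ obj c (re x) < obj c (re y)

/-- `P` has an unbounded edge at `x`, in the direction `d`, on which the objective function
increases -/
def UnboundedEdge {n : ℕ} (P : Set (Fin n → ℝ)) (c x d : Fin n → ℚ) : Prop :=
  IsExposed ℝ P {z | ∃ t : ℝ, 0 ≤ t ∧ z = re x + t • re d} ∧ 0 < obj c (re d)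

/-- The vertices `x 0, …, x N` of `P` are a path of improving edges starting at `v`. It ends at a
vertex maximising the objective function (`d = none`), or at a vertex with an unbounded improving
edge in the direction `e` (`d = some e`). -/
def IsSimplexPath {n : ℕ} (P : Set (Fin n → ℝ)) (c v : Fin n → ℚ) (N : ℕ)
    (x : ℕ → Fin n → ℚ) (d : Option (Fin n → ℚ)) : Prop :=
  x 0 = v ∧ (∀ k ≤ N, re (x k) ∈ Set.extremePoints ℝ P) ∧
    (∀ k < N, ImprovingEdge P c (x k) (x (k + 1))) ∧
    (d = none → ∀ y ∈ P, obj c y ≤ obj c (re (x N))) ∧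
    ∀ e, d = some e → UnboundedEdge P c (x N) e

/-- the row `A_i` or `-e_j` of the system `A x ≤ b`, `-x ≤ 0` -/
def row {m n : ℕ} (A : Fin m → Fin n → ℚ) : Fin m ⊕ Fin n → Fin n → ℚ :=
  Sum.elim A (fun j => -Pi.single j 1)

/-- Imbalance at most `κ`: if a row is a combination of `n` linearly independent rows, then the
coefficients are at most `κ` in absolute value. -/
def Imbalance {m n : ℕ} (A : Fin m → Fin n → ℚ) (κ : ℚ) : Prop :=
  ∀ (B : Fin n → Fin m ⊕ Fin n) (l : Fin m ⊕ Fin n) (β : Fin n → ℚ),
    LinearIndependent ℚ (fun k => row A (B k)) →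
    row A l = ∑ k, β k • row A (B k) → ∀ k, |β k| ≤ κ

/-- the linear program `A`, `b`, `c` as a bit string -/
def program {m n : ℕ} (A : Fin m → Fin n → ℚ) (b : Fin m → ℚ) (c : Fin n → ℚ) : List Bool :=
  bits (List.ofFn fun i => List.ofFn (A i), List.ofFn b, List.ofFn c)

/-- the linear program `A`, `b`, `c` with its start vertex `v` as a bit string -/
def input {m n : ℕ} (A : Fin m → Fin n → ℚ) (b : Fin m → ℚ) (c v : Fin n → ℚ) : List Bool :=
  bits (List.ofFn fun i => List.ofFn (A i), List.ofFn b, List.ofFn c, List.ofFn v)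

/-- the number `T` in unary, the table `W` of weights, and the linear program with its start
vertex, as a bit string -/
def query {m n : ℕ} (T : ℕ) (W : List (List ℕ)) (A : Fin m → Fin n → ℚ) (b : Fin m → ℚ)
    (c v : Fin n → ℚ) : List Bool :=
  bits (List.replicate T (), W,
    List.ofFn fun i => List.ofFn (A i), List.ofFn b, List.ofFn c, List.ofFn v)

/-- the answer `x 0, …, x N` and `d` as a bit string -/
def answer {n : ℕ} (N : ℕ) (x : ℕ → Fin n → ℚ) (d : Option (Fin n → ℚ)) : List Bool :=
  bits (some ((List.range (N + 1)).map (fun k => List.ofFn (x k)), d.map List.ofFn) :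
    Option (List (List ℚ) × Option (List ℚ)))

/-- the answer that no path was found -/
def noAnswer : List Bool := bits (none : Option (List (List ℚ) × Option (List ℚ)))

/-- the table of the numbers `Q + ω i j` -/
def table {r L Q : ℕ} (ω : Fin r → Fin L → Fin Q) : List (List ℕ) :=
  List.ofFn fun i => List.ofFn fun j => Q + (ω i j : ℕ)

/-- The table of weights works for all linear programs with at most `L` bits, all start vertices,
and all `T ≥ max (72 n ^ 4 κ ^ 3) 1`, where `κ` is a bound for the imbalance. -/
def GoodTable (g : List Bool → List Bool) (L : ℕ)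
    (ω : Fin (2 * L + 1) → Fin L → Fin (2 ^ (7 * L + 3))) : Prop :=
  ∀ (m n : ℕ) (A : Fin m → Fin n → ℚ) (b : Fin m → ℚ) (c v : Fin n → ℚ) (κ : ℚ) (T : ℕ),
    re v ∈ Set.extremePoints ℝ (polyhedron A b) → (input A b c v).length ≤ L →
    Imbalance A κ → 72 * (n : ℚ) ^ 4 * κ ^ 3 ≤ T → 1 ≤ T →
    ∃ (N : ℕ) (x : ℕ → Fin n → ℚ) (d : Option (Fin n → ℚ)),
      g (query T (table ω) A b c v) = answer N x d ∧ N ≤ T ∧
        IsSimplexPath (polyhedron A b) c v N x d

theorem imbalance_real {m n : ℕ} {A : Fin m → Fin n → ℚ} {κ : ℚ} (h : Imbalance A κ) :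
    N477.RS.Imb A (κ : ℝ) := by
  classical
  intro B l β hB hβ k
  have hrow : ∀ p j, N477.RS.arow (N477.RS.Ar A) p j = ((row A p j : ℚ) : ℝ) := by
    rintro (i | i) j
    · rfl
    · simp only [N477.RS.arow, row, Sum.elim_inr, Pi.neg_apply]
      by_cases h : j = i
      · subst h; simp
      · rw [Pi.single_eq_of_ne h, Pi.single_eq_of_ne h]; simp
  -- the matrix of the basis, over the rational numbers
  set M : Matrix (Fin n) (Fin n) ℚ := Matrix.of fun k => row A (B k) with hM
  have hMR : M.map (fun q : ℚ => (q : ℝ)) =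
      Matrix.of fun k => N477.RS.arow (N477.RS.Ar A) (B k) := by
    ext k j
    exact (hrow _ _).symm
  have hdet : M.det ≠ 0 := by
    intro h0
    have h1 : (M.map (fun q : ℚ => (q : ℝ))).det = 0 := by
      have := (Rat.castHom ℝ).map_det M
      rw [h0, map_zero] at this
      exact this.symm
    rw [hMR] at h1
    have h2 := Matrix.linearIndependent_rows_iff_isUnit.1
      (show LinearIndependent ℝ (Matrix.of fun k => N477.RS.arow (N477.RS.Ar A) (B k)).row from hB)
    rw [Matrix.isUnit_iff_isUnit_det, h1] at h2
    exact not_isUnit_zero h2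
  have hunit : IsUnit M := (Matrix.isUnit_iff_isUnit_det M).2 (isUnit_iff_ne_zero.2 hdet)
  have hBQ : LinearIndependent ℚ (fun k => row A (B k)) :=
    Matrix.linearIndependent_rows_iff_isUnit.2 hunit
  -- the rational coefficients
  obtain ⟨γ, hγ⟩ : ∃ γ : Fin n → ℚ, row A l = ∑ k, γ k • row A (B k) := by
    refine ⟨Matrix.vecMul (row A l) M⁻¹, ?_⟩
    have h1 : Matrix.vecMul (Matrix.vecMul (row A l) M⁻¹) M = row A l := by
      rw [Matrix.vecMul_vecMul, Matrix.nonsing_inv_mul M (isUnit_iff_ne_zero.2 hdet),
        Matrix.vecMul_one]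
    conv_lhs => rw [← h1]
    ext j
    generalize Matrix.vecMul (row A l) M⁻¹ = γ
    simp [Matrix.vecMul, dotProduct, hM]
  have hγR : N477.RS.arow (N477.RS.Ar A) l =
      ∑ k, ((γ k : ℚ) : ℝ) • N477.RS.arow (N477.RS.Ar A) (B k) := by
    ext j
    have h1 := congrFun hγ j
    rw [hrow, h1, Finset.sum_apply, Finset.sum_apply]
    push_cast
    refine Finset.sum_congr rfl fun k _ => ?_
    rw [Pi.smul_apply, Pi.smul_apply, smul_eq_mul, smul_eq_mul, hrow]
    push_cast
    ring
  have h3 : β k = (γ k : ℝ) := by
    have h4 : ∑ k, (β k - (γ k : ℝ)) • N477.RS.arow (N477.RS.Ar A) (B k) = 0 := by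
      simp_rw [sub_smul]
      rw [Finset.sum_sub_distrib, ← hβ, ← hγR, sub_self]
    have h5 := Fintype.linearIndependent_iff.1 hB _ h4 k
    linarith
  rw [h3]
  exact_mod_cast h B l γ hBQ hγ k

/-- **The random shadow vertex rule is polynomial on all linear programs of small imbalance.** -/
theorem result : ∃ g : List Bool → List Bool, PolyTime g ∧
    -- the answers are correct for all linear programs, with any table of weights
    (∀ (T : ℕ) (W : List (List ℕ)) (m n : ℕ) (A : Fin m → Fin n → ℚ) (b : Fin m → ℚ)
      (c v : Fin n → ℚ), re v ∈ Set.extremePoints ℝ (polyhedron A b) →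
      g (query T W A b c v) = noAnswer ∨
      ∃ (N : ℕ) (x : ℕ → Fin n → ℚ) (d : Option (Fin n → ℚ)),
        g (query T W A b c v) = answer N x d ∧ N ≤ T ∧
          IsSimplexPath (polyhedron A b) c v N x d) ∧
    -- a random table works for all linear programs of small imbalance simultaneously
    (∀ L : ℕ, 2 ^ L * Nat.card {ω // ¬ GoodTable g L ω} ≤
      Nat.card (Fin (2 * L + 1) → Fin L → Fin (2 ^ (7 * L + 3)))) ∧
    -- the imbalance is bounded by the subdeterminants
    (∀ (m n : ℕ) (A : Matrix (Fin m) (Fin n) ℤ) (Δ : ℤ),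
      (∀ (k : ℕ) (f : Fin k → Fin m) (g : Fin k → Fin n), |(A.submatrix f g).det| ≤ Δ) →
      Imbalance (fun i j => (A i j : ℚ)) Δ) ∧
    -- the start vertex is not longer than a polynomial in the length of the program
    ∃ q : Polynomial ℕ, ∀ (m n : ℕ) (A : Fin m → Fin n → ℚ) (b : Fin m → ℚ) (c v : Fin n → ℚ),
      re v ∈ Set.extremePoints ℝ (polyhedron A b) →
      (input A b c v).length ≤ q.eval (program A b c).length := by
  classical
  have hquery : ∀ (T : ℕ) (W : List (List ℕ)) {m n : ℕ} (A : Fin m → Fin n → ℚ)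
      (b : Fin m → ℚ) (c v : Fin n → ℚ), bits (NPC.N477RS.solve (query T W A b c v)) =
        bits (N477.RS.runs (Y644.QS.inp A b c v) T W) := fun T W m n A b c v => by
    have h := NPC.N477RS.solve_bits T W (Y644.QS.inp A b c v)
    rw [← h]
    rfl
  have hsound : ∀ (T : ℕ) (W : List (List ℕ)) (m n : ℕ) (A : Fin m → Fin n → ℚ)
      (b : Fin m → ℚ) (c v : Fin n → ℚ), re v ∈ Set.extremePoints ℝ (polyhedron A b) →
      bits (NPC.N477RS.solve (query T W A b c v)) = noAnswer ∨
      ∃ (N : ℕ) (x : ℕ → Fin n → ℚ) (d : Option (Fin n → ℚ)),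
        bits (NPC.N477RS.solve (query T W A b c v)) = answer N x d ∧ N ≤ T ∧
          IsSimplexPath (polyhedron A b) c v N x d := by
    intro T W m n A b c v hv
    rw [hquery]
    cases h : N477.RS.runs (Y644.QS.inp A b c v) T W with
    | none => exact Or.inl rfl
    | some o =>
      obtain ⟨w, -, ho⟩ := N477.RS.runs_some h
      obtain ⟨N, x, d, h1, h2, h3⟩ := N477.RS.run1_sound hv ho
      exact Or.inr ⟨N, x, d, by rw [h1]; rfl, h3, h2⟩
  have hbad : ∀ L : ℕ, 2 ^ L * Nat.card
      {ω // ¬ GoodTable (fun s => bits (NPC.N477RS.solve s)) L ω} ≤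
      Nat.card (Fin (2 * L + 1) → Fin L → Fin (2 ^ (7 * L + 3))) := by
    intro L
    have h := N477.RS.card_all L
    have hR : Nat.card (Fin (2 * L + 1) → Fin L → Fin (2 ^ (7 * L + 3))) =
        ((2 ^ (7 * L + 3)) ^ L) ^ (2 * L + 1) := by
      rw [Nat.card_eq_fintype_card, Fintype.card_fun, Fintype.card_fun, Fintype.card_fin,
        Fintype.card_fin, Fintype.card_fin]
    rw [hR]
    refine le_trans (Nat.mul_le_mul_left _ ?_) h
    rw [Nat.card_eq_fintype_card, Fintype.card_subtype]
    apply Finset.card_le_card
    intro ω hω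
    have hω' := (Finset.mem_filter.1 hω).2
    unfold GoodTable at hω'
    push Not at hω'
    obtain ⟨m, n, A, b, c, v, κ, T, hv, hL, hκ, hT, hT1, hg⟩ := hω'
    refine Finset.mem_filter.2 ⟨Finset.mem_univ _, Y644.QS.inp A b c v, T,
      ⟨m, n, A, b, c, v, κ, rfl, hv, imbalance_real hκ, by exact_mod_cast hT, hT1⟩, ?_, ?_⟩
    · have : (input A b c v).length = sz (Y644.QS.inp A b c v) := bits_length _
      omega
    · have h1 : bits (NPC.N477RS.solve (query T (table ω) A b c v)) = noAnswer := by
        rcases hsound T (table ω) m n A b c v hv with h2 | ⟨N, x, d, h2, h3, h4⟩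
        · exact h2
        · exact absurd h4 (hg N x d h2 h3)
      rw [hquery] at h1
      exact bits_injective h1
  have hdet : ∀ (m n : ℕ) (A : Matrix (Fin m) (Fin n) ℤ) (Δ : ℤ),
      (∀ (k : ℕ) (f : Fin k → Fin m) (g : Fin k → Fin n), |(A.submatrix f g).det| ≤ Δ) →
      Imbalance (fun i j => (A i j : ℚ)) Δ := by
    intro m n A Δ hA B l β hB hβ k
    have h0 := N477.MD.bal_of_det A hA
    have hrow : ∀ p j, ((row (fun i j => (A i j : ℚ)) p j : ℚ) : ℝ) =
        Sum.elim (fun _ => (1 : ℝ)) (fun _ => -1) p *
          N477.MD.stack (fun _ => 1) (fun _ => 1) (A.map (fun z : ℤ => (z:ℝ))) p j := by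
      rintro (i | i) j
      · simp [row, N477.MD.stack]
      · simp only [row, N477.MD.stack, Sum.elim_inr, Pi.neg_apply]
        by_cases h : j = i
        · subst h; simp
        · rw [Pi.single_eq_of_ne h, Pi.single_eq_of_ne h]; simp
    have h1 : N477.MD.Bal (fun (p : Fin m ⊕ Fin n) (j : Fin n) =>
        ((row (fun i j => (A i j : ℚ)) p j : ℚ) : ℝ)) (Δ : ℝ) := by
      refine N477.MD.bal_of_signs h0 id (Sum.elim (fun _ => 1) (fun _ => -1)) ?_ ?_
      · rintro (i | j) <;> simp
      · intro p
        ext j
        rw [Pi.smul_apply, smul_eq_mul]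
        exact hrow p j
    have hBR : LinearIndependent ℝ (fun k (j : Fin n) =>
        ((row (fun i j => (A i j : ℚ)) (B k) j : ℚ) : ℝ)) := by
      set M : Matrix (Fin n) (Fin n) ℚ := Matrix.of fun k => row (fun i j => (A i j : ℚ)) (B k)
        with hM
      have hu : IsUnit M := Matrix.linearIndependent_rows_iff_isUnit.1 hB
      rw [Matrix.isUnit_iff_isUnit_det, isUnit_iff_ne_zero] at hu
      have h2 : IsUnit (M.map (fun q : ℚ => (q : ℝ))) := by
        rw [Matrix.isUnit_iff_isUnit_det, isUnit_iff_ne_zero]
        have h3 : (M.map (fun q : ℚ => (q : ℝ))).det = ((M.det : ℚ) : ℝ) :=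
          ((Rat.castHom ℝ).map_det M).symm
        rw [h3]
        exact_mod_cast hu
      exact Matrix.linearIndependent_rows_iff_isUnit.2 h2
    have h2 := h1 B l (fun k => (β k : ℝ)) hBR (by
      ext j
      have h3 := congrFun hβ j
      rw [Finset.sum_apply] at h3 ⊢
      show ((row (fun i j => (A i j : ℚ)) l j : ℚ) : ℝ) = _
      rw [h3]
      push_cast
      refine Finset.sum_congr rfl fun k _ => ?_
      rw [Pi.smul_apply, Pi.smul_apply, smul_eq_mul, smul_eq_mul]
      push_cast
      ring) k
    have h4 : ((|β k| : ℚ) : ℝ) ≤ ((Δ : ℚ) : ℝ) := by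
      push_cast
      exact h2
    exact_mod_cast h4
  exact ⟨_, NPC.N477RS.poly_solve, hsound, hbad, hdet, NPC.Y644.exists_vertex_bound⟩

end Pool.Agent.Results.MP_4d246d_lc.RandomShadowVertex
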